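import Pool.Agent.U207.GB.Ratio
import Pool.Agent.U207.AC.Fib

set_option autoImplicit false

/-!
# Fibrations in curves of genus at most one: dense entire curves come from the common base, and
Campana's equivalence if the base is dominated by subvarieties connected by such curves

Let `F` be an irreducible polynomial in `N` variables over `ℂ` and `X` the hypersurface `F = 0`, with
the function field `K` (every complex variety is birational to such a hypersurface). Let finitely
many dominant rational fibrations of `X` in curves of genus at most one be given, by their fields of
functions `L 1, …, L m` of the bases, intermediate fields of `K`. As in the starting file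
`GenusOneFibrations`, the fibres need no section, and no transversality is supposed.

The functions in `K` which are algebraic over every `L i` form the field of functions of a variety
`B`, the common base of the fibrations: `X ⇢ B` has connected general fibres, which are the varieties
connected by chains of fibres of the given fibrations. If `B` is a point, `GenusOneFibrations` says
that `X` is Brody-special. Here `B` is arbitrary. We suppose that some of the coordinates of `X`,
those with index in `S`, are algebraically independent, and that the functions of `B` are algebraic
over them: they are for instance a transcendence basis of the field of functions of `B` (every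
variety has such a model: add a transcendence basis of the functions of `B` to the coordinates and
complete it by the theorem of the primitive element).

The theorem: there is a proper closed subset `T = 0` of `X` such that some entire curve is Zariski
dense in `X` if and only if there is one entire curve in `X`, not contained in `T = 0`, whose image
in the base is Zariski dense. Here entire curves are holomorphic maps from the complex plane to the
projective closure of `X`, not contained in the hyperplane at infinity; they are given by entire
functions. So entire curves which are only dense in the base produce entire curves which are dense
in `X`, if one of them is not in `T = 0`; `X` has a dense entire curve if and only if the entire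
curves with a dense image in the base are Zariski dense in `X`. If this is so, then every projective
variety dominated by `X` is Brody-special.

It follows that Campana's equivalence holds for the `X` which are covered by subvarieties which
dominate the base and are connected by curves of genus at most one: they are special and
Brody-special. The subvarieties are given by a variety `Z`, the hypersurface `G = 0` with function
field `J` and generic point `z`, with fibrations in curves of genus at most one with the common base
`B'`, whose coordinates are the `z s`, `s` in `S'`, and by a dominant rational map from `Z` to `X`,
that is an embedding `θ` of `K` in `J`: the subvarieties are the images of the fibres of `Z ⇢ B'`.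
That they dominate `B` says that the `x s`, `s` in `S`, and the `z s`, `s` in `S'`, are together
algebraically independent. The fibres of `Z ⇢ B'` can be for instance rational varieties, products of
elliptic curves, or K3 surfaces with two elliptic fibrations.

The proof. Let `γ` be the given curve, a point with coordinates in the field of meromorphic functions.
Consider the meromorphic points `P` of `X` which specialize to `γ`, that is, such that the
polynomials which vanish at `P` vanish at `γ`; then `T` does not vanish at `P` and the coordinates
of `P` in `S` are independent. Let `P` be one of maximal transcendence degree. The curve of the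
`i`-th fibration through `P` has a point which is transcendental over the field of `P`, by the
theorems on meromorphic points of curves of genus at most one in the starting library; so the
vanishing ideal of `P` is stable under the vector fields tangent to the fibrations. The Lie algebra
over `K` which they generate consists of all the vector fields which kill the functions of `B`: for
this one passes to the field of these functions, over which the variety is connected by the
fibrations. So the ideal of `P` is stable under all the vector fields which kill the coordinates in
`S`; as the coordinates of `P` in `S` are independent, the ideal is `(F)`.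

For the second part we need an entire curve in `X` which is not in `T = 0` and dense in the base. Let
`P` be a meromorphic point of `Z` of maximal transcendence degree which specializes to a general
complex point of `Z`. Its ideal is stable under the vector fields on `Z` which kill the functions of
`B'`. Among these are dual vector fields of the functions `θ (x s)`, because they are algebraically
independent over the functions of `B'`. So a relation between the values of the `θ (x s)` at `P` can
be differentiated until it is constant; so they are algebraically independent, and the image of `P`
is the meromorphic point of `X` which we need.

And `X` is special: the ratios of the sections of a Bogomolov sheaf on `X` are constant on the fibres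
of the given fibrations, so they are functions on `B`; the pull-back of the sheaf to `Z` is a
Bogomolov sheaf (`U207/PB/Pull.lean`), so the ratios are functions on `B'`; as the functions of `B`
and `B'` are independent, the ratios are constant.
-/

namespace Pool.Agent.Results.MP_1209e6_ag.GenusOneBaseCurves

open MvPolynomial Pool.Agent.W599.CB Pool.Agent.Y742.GG Pool.Agent.U207.GB
open Pool.Agent.W602.GT

section

variable {K : Type} [Field K] [Algebra ℂ K] {N m : ℕ}

/-- The intermediate fields `L i` define fibrations in curves of genus at most one: `K` is over `L i`
the function field of a curve `w² = Q(t)`, with `Q` of degree at most four and not a constant times a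
square, or of a torsor under an elliptic curve. -/
def IsGenusOneFamily (L : Fin m → IntermediateField ℂ K) : Prop :=
  ∀ i, IsDoubleCoverOfLine (L i) ∨ IsEllipticTorsor (L i)

/-- The coordinates `x s`, `s` in `S`, are coordinates of the common base of the fibrations: they are
algebraically independent, and all the elements of `K` which are algebraic over every `L i` are
algebraic over them. -/
structure IsCommonBase (x : Fin N → K) (L : Fin m → IntermediateField ℂ K) (S : Set (Fin N)) :
    Prop where
  independent : AlgebraicIndependent ℂ (fun s : S => x s)
  algebraic : ∀ a : K, (∀ i, IsAlgebraic (L i) a) → IsAlgebraic (Algebra.adjoin ℂ (x '' S)) a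

/-- The variety with generic point `x` is covered by subvarieties which are connected by curves of
genus at most one and whose projections to the coordinates with index in `S` are dominant: there is
an irreducible hypersurface `G = 0` with function field `J` and generic point `z`, with fibrations
`L'` in curves of genus at most one with a common base with coordinates `z s`, `s` in `S'`, and an
embedding `θ` of `K` in `J`, such that the `x s`, `s` in `S`, and the `z s`, `s` in `S'`, are together
algebraically independent. The subvarieties are the images of the fibres of the hypersurface `G = 0`
over the common base of the `L'`. -/
def IsCoveredOver (x : Fin N → K) (S : Set (Fin N)) : Prop :=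
  ∃ (q n : ℕ) (G : MvPolynomial (Fin q) ℂ) (J : Type) (_ : Field J) (_ : Algebra ℂ J)
    (z : Fin q → J) (L' : Fin n → IntermediateField ℂ J) (S' : Set (Fin q)) (θ : K →ₐ[ℂ] J),
    Irreducible G ∧ IsGenericPoint G z ∧ IsGenusOneFamily L' ∧ IsCommonBase z L' S' ∧
      AlgebraicIndependent ℂ (Sum.elim (fun s : S => θ (x s)) (fun s : S' => z s))

end

/-- Every projective variety dominated by the hypersurface `F = 0`, that is, the Zariski closure of
its image under a rational map `[ξ₀ : ... : ξ_M]`, has a Zariski dense entire curve. -/
def DominatesBrodySpecial {N : ℕ} (F : MvPolynomial (Fin N) ℂ) : Prop :=
  ∀ (M : ℕ) (ξ : Fin (M + 1) → MvPolynomial (Fin N) ℂ),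
    (ratImage {v | eval v F = 0} ξ).Nonempty →
      IsBrodySpecial (zariskiClosure (ratImage {v | eval v F = 0} ξ))

/-- Let `F` be an irreducible polynomial over `ℂ`, `K` the function field of `F = 0` and `x` the
generic point. Let `L i` be finitely many intermediate fields of `K` which define fibrations in
curves of genus at most one, and let the coordinates with index in `S` be coordinates of their common
base. Then there is a polynomial `T`, not divisible by `F`, such that the following are equivalent:
some entire curve is Zariski dense in `F = 0`; some entire curve in `F = 0`, not contained in
`T = 0`, has a Zariski dense image in the common base. (Entire curve means here: given by quotients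
of entire functions with a common denominator.) If this is so, then every projective variety
dominated by `F = 0` is Brody-special. If `F = 0` is covered by subvarieties which dominate the
common base and are connected by curves of genus at most one, then this is so and `K` is the function
field of special varieties. -/
theorem result {N m : ℕ} (F : MvPolynomial (Fin N) ℂ) (hF : Irreducible F)
    {K : Type} [Field K] [Algebra ℂ K] {x : Fin N → K} (hx : IsGenericPoint F x)
    (L : Fin m → IntermediateField ℂ K) (hL : IsGenusOneFamily L)
    (S : Set (Fin N)) (hS : IsCommonBase x L S) :
    (∃ T : MvPolynomial (Fin N) ℂ, ¬ F ∣ T ∧
      ((∃ P : MCurve N, P.DenseIn F) ↔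
        ∃ γ : MCurve N, γ.Vanishes F ∧ ¬ γ.Vanishes T ∧ γ.DenseInBase S)) ∧
    ((∃ P : MCurve N, P.DenseIn F) → DominatesBrodySpecial F) ∧
    (IsCoveredOver x S →
      (∃ w : ℕ, Algebra.trdeg ℂ K = w ∧ Special ℂ K w (fun _ => False)) ∧
      ∃ P : MCurve N, P.DenseIn F) := by
  refine ⟨?_, ?_, ?_⟩
  · obtain ⟨T, hT, hT'⟩ :=
      Pool.Agent.U207.GB.base_curves F hF hx L hL S hS.independent hS.algebraic
    have hT0 : ¬ F ∣ T := fun h => hT ((hx.zero_iff T).2 h)
    refine ⟨T, hT0, ?_, ?_⟩
    · rintro ⟨P, hP⟩
      refine ⟨P, (hP F).2 dvd_rfl, fun h => hT0 ((hP T).1 h), ?_⟩
      rw [MCurve.denseInBase_iff, algebraicIndependent_iff]
      intro p hp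
      have h1 : P.Vanishes (rename (fun s : S => (s : Fin N)) p) := by
        rw [MCurve.vanishes_iff, aeval_rename]; exact hp
      have h2 : aeval x (rename (fun s : S => (s : Fin N)) p) = 0 :=
        (hx.zero_iff _).2 ((hP _).1 h1)
      rw [aeval_rename] at h2
      exact (algebraicIndependent_iff.1 hS.independent) p h2
    · rintro ⟨γ, h1, h2, h3⟩
      rw [MCurve.vanishes_iff] at h1 h2
      rw [MCurve.denseInBase_iff] at h3
      obtain ⟨P, hP⟩ := hT' γ.toMer h1 h2 h3
      obtain ⟨P', rfl⟩ := MCurve.exists_of_mer P
      exact ⟨P', fun Q => by rw [MCurve.vanishes_iff, hP]⟩
  · rintro ⟨P, hP⟩ M ξ hξ
    exact Pool.Agent.U207.GB.brody_of_generic (P := P.toMer)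
      (fun Q => by rw [← MCurve.vanishes_iff, hP]) ξ hξ
  · rintro ⟨q, n, G, J, hJ₁, hJ₂, z, L', S', θ, hG, hz, hL', hS', hθ⟩
    have hfgK : ∀ {M : ℕ} {Q : MvPolynomial (Fin M) ℂ} {J : Type} [Field J] [Algebra ℂ J]
        {z : Fin M → J}, IsGenericPoint Q z →
        ∃ T : Finset J, IntermediateField.adjoin ℂ (T : Set J) = ⊤ := by
      classical
      intro M Q J _ _ z hz
      refine ⟨Finset.univ.image z, ?_⟩
      rw [Finset.coe_image, Finset.coe_univ, Set.image_univ]
      exact hz.generates
    refine ⟨Pool.Agent.U207.AC.special_fib (hfgK hx) (hfgK hz) L hL (fun s : S => x s)
      (fun a ha => ?_) L' hL' (fun s : S' => z s) (fun a ha => ?_) θ hθ, ?_⟩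
    · have h := hS.algebraic a ha
      rwa [Set.image_eq_range] at h
    · have h := hS'.algebraic a ha
      rwa [Set.image_eq_range] at h
    obtain ⟨T, hT, hT'⟩ :=
      Pool.Agent.U207.GB.base_curves F hF hx L hL S hS.independent hS.algebraic
    obtain ⟨γ, h1, h2, h3⟩ := Pool.Agent.U207.AC.exists_curve_fib ((hx.zero_iff F).2 dvd_rfl) hT S
      hG hz L' hL' S' hS'.algebraic θ hθ
    obtain ⟨P, hP⟩ := hT' γ h1 h2 h3
    obtain ⟨P', rfl⟩ := MCurve.exists_of_mer P
    exact ⟨P', fun Q => by rw [MCurve.vanishes_iff, hP]⟩

end Pool.Agent.Results.MP_1209e6_ag.GenusOneBaseCurves
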