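import Pool.Agent.U207.IM.Base
import Pool.Agent.U207.IM.Mer
import Pool.Agent.U207.GB.Ratio

/-!
# Dense entire curves and the base of the immovable fibration

Let `X` be a complex variety with the function field `K`. A function `a` on `X` is movable if
`σ a ∉ K` for some homomorphism `σ : K → K(t₁, …, tₙ)` over `ℂ`, that is, if it is not constant along
some rational family `X × 𝔸ⁿ ⇢ X`. The other functions form an algebraically closed subfield `M` of
`K`, the function field of the base `B` of the immovable fibration `X ⇢ B`. For example, if `X` is
a conic bundle over `B'`, or a family over `B'` of homogeneous spaces of connected linear algebraic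
groups, then `M` is contained in the function field of `B'`. We take an affine model of `X` such that
some of its coordinates are a transcendence basis of `M` (every variety has such models).

Theorem. There is a nonempty open subset `U` of `X` such that some entire curve is Zariski dense in
`X` if and only if there is one entire curve in `X` which meets `U` and whose image in the base `B` is
Zariski dense. In particular `X` has a Zariski dense entire curve if this is true for one
subvariety `Z` of `X` which meets `U` and dominates `B`. Then every projective variety dominated by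
`X` is Brody-special. Entire curves are holomorphic maps from the complex plane to the projective
closure of `X`, not contained in the hyperplane at infinity; they are given by entire functions.

Nothing is assumed about the fibres of `X ⇢ B`; only that all functions which are not pulled back
from the base (up to algebraic functions) are moved by some rational family.

Proof. There is one family `φ : X × 𝔸ⁿ ⇢ X` which moves all the functions independently which are
independent over `M`. It maps the fibre over `b` to the fibre over `ψ(b)`. Let `c` be a point of `U`
with coordinates in the field of meromorphic functions. Then `φ(c, t)`, for `t` independent over the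
field of `c`, is a generic point of the fibre over `ψ(b(c))`, and `ψ(b(c))` is a generic point of `B`
if `b(c)` is one. Finally, there are meromorphic functions `t₁, …, tₙ` which are algebraically
independent over the field of `c`.
-/

set_option autoImplicit false

namespace Pool.Agent.Results.MP_1209e6_ag.ImmovableBaseCurves

open Pool.Agent.U207.GB Pool.Agent.W599.CB MvPolynomial

section defs

variable {K : Type} [Field K] [Algebra ℂ K] {N : ℕ}

/-- The function `a` is moved by a rational family of rational self-maps. -/
def Movable {K : Type} [Field K] [Algebra ℂ K] (a : K) : Prop :=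
  ∃ (n : ℕ) (σ : K →ₐ[ℂ] FractionRing (MvPolynomial (Fin n) K)),
    σ a ∉ Set.range (algebraMap K (FractionRing (MvPolynomial (Fin n) K)))

/-- The coordinates `x i`, `i ∈ S`, are coordinates of the base of the immovable fibration: a
transcendence basis of the field of the immovable functions. -/
structure IsBase (x : Fin N → K) (S : Set (Fin N)) : Prop where
  immovable : ∀ i ∈ S, ¬ Movable (x i)
  independent : AlgebraicIndependent ℂ (fun i : S => x i)
  algebraic : ∀ a : K, ¬ Movable a → IsAlgebraic (Algebra.adjoin ℂ (x '' S)) a

/-- `z` is a point, with coordinates in the extension `L` of `ℂ`, of the affine variety with the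
generic point `x`: it satisfies all the equations over `ℂ` which are satisfied by `x`. -/
def IsPoint (x : Fin N → K) {L : Type} [Field L] [Algebra ℂ L] (z : Fin N → L) : Prop :=
  ∀ Q : MvPolynomial (Fin N) ℂ, aeval x Q = 0 → aeval z Q = 0

/-- The entire curve `γ` is in the affine variety `X` with the generic point `x`: all polynomials
which vanish at `x` vanish on it. -/
def InVariety (x : Fin N → K) (γ : MCurve N) : Prop := ∀ Q, aeval x Q = 0 → γ.Vanishes Q

/-- The entire curve `γ` is in the affine variety with the generic point `x` and Zariski dense in
it: the same polynomials vanish on it as on the variety. -/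
def DenseInVariety (x : Fin N → K) (γ : MCurve N) : Prop := ∀ Q, γ.Vanishes Q ↔ aeval x Q = 0

/-- The set of the points of the affine variety with the generic point `x`. -/
def points (x : Fin N → K) : Set (Fin N → ℂ) := {v | ∀ Q, aeval x Q = 0 → eval v Q = 0}

/-- Every projective variety dominated by the affine variety with the generic point `x`, that is,
the Zariski closure of its image under a rational map `[ξ₀ : ... : ξ_M]`, is Brody-special: it has a
Zariski dense entire curve. -/
def DominatesBrodySpecial (x : Fin N → K) : Prop :=
  ∀ (M : ℕ) (ξ : Fin (M + 1) → MvPolynomial (Fin N) ℂ),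
    (ratImage (points x) ξ).Nonempty → IsBrodySpecial (zariskiClosure (ratImage (points x) ξ))

end defs

open Pool.Agent.U207.IM Pool.Agent.R867.Mov Pool.Agent.R867.D in
/-- Let `K` be a finitely generated extension of `ℂ`. (0) There are generators `x` of `K`, the
generic point of an affine variety, some of which are coordinates of the base of the immovable
fibration. Let `x` be such generators, `X` the variety, and let the coordinates in `S` be the
coordinates of the base. (1) There is a polynomial `g` with `g(x) ≠ 0` such that some entire curve is
Zariski dense in `X` if and only if some entire curve in `X`, not contained in `g = 0`, has a Zariski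
dense projection to the coordinates of the base; this is so if `X` contains a subvariety `Z`, with
generic point `z` and `g(z) ≠ 0`, which dominates the base and in which some entire curve is Zariski
dense. (2) In this case every projective variety dominated by `X` is Brody-special. -/
theorem result (K : Type) [Field K] [Algebra ℂ K]
    (hfg : ∃ G : Finset K, IntermediateField.adjoin ℂ (G : Set K) = ⊤) :
    (∃ (N : ℕ) (x : Fin N → K) (S : Set (Fin N)),
      IntermediateField.adjoin ℂ (Set.range x) = ⊤ ∧ IsBase x S) ∧
    ∀ (N : ℕ) (x : Fin N → K) (S : Set (Fin N)), IntermediateField.adjoin ℂ (Set.range x) = ⊤ →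
      IsBase x S →
      (∃ g : MvPolynomial (Fin N) ℂ, aeval x g ≠ 0 ∧
        ((∃ P : MCurve N, DenseInVariety x P) ↔
          ∃ γ : MCurve N, InVariety x γ ∧ ¬ γ.Vanishes g ∧ γ.DenseInBase S) ∧
        ∀ (L : Type) [Field L] [Algebra ℂ L] (z : Fin N → L), IsPoint x z → aeval z g ≠ 0 →
          AlgebraicIndependent ℂ (fun i : S => z i) →
          (∃ P : MCurve N, DenseInVariety z P) → ∃ P : MCurve N, DenseInVariety x P) ∧
      ((∃ P : MCurve N, DenseInVariety x P) → DominatesBrodySpecial x) := by
  have hmem : ∀ a : K, Imm ℂ a ↔ ¬ Movable a := by
    intro a
    constructor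
    · rintro ha ⟨n, σ, hσ⟩
      exact hσ (ha n σ)
    · intro h n σ
      by_contra h2
      exact h ⟨n, σ, h2⟩
  constructor
  · obtain ⟨N, x, S, hx, h1, h2, h3⟩ := exists_coords hfg
    exact ⟨N, x, S, hx, ⟨fun i hi => (hmem _).mp (h1 i hi), h2, fun a ha => h3 a ((hmem a).mpr ha)⟩⟩
  intro N x S hx hS
  have h1 : ∀ i ∈ S, Imm ℂ (x i) := fun i hi => (hmem _).mpr (hS.immovable i hi)
  have h2 : AlgebraicIndepOn ℂ x S := hS.independent
  have h3 : ∀ a, Imm ℂ a → a ∈ cl ℂ (x '' S) := fun a ha => hS.algebraic a ((hmem a).mp ha)
  obtain ⟨g, hg, H⟩ := generic_pt hx h1 h2 h3
  -- curves from curves which are dense in the base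
  have key : ∀ γ : MCurve N, InVariety x γ → ¬ γ.Vanishes g → γ.DenseInBase S →
      ∃ P : MCurve N, DenseInVariety x P := by
    intro γ h4 h5 h6
    rw [MCurve.vanishes_iff] at h5
    rw [MCurve.denseInBase_iff] at h6
    obtain ⟨y, hy⟩ := H (L := Mer) (fun c n => exists_indep c n) γ.toMer
      (fun Q hQ => (MCurve.vanishes_iff γ Q).mp (h4 Q hQ)) h5 h6
    obtain ⟨P, rfl⟩ := MCurve.exists_of_mer y
    exact ⟨P, fun Q => by rw [MCurve.vanishes_iff, hy]⟩
  -- dense curves dominate the base
  have base : ∀ (L : Type) [Field L] [Algebra ℂ L] (z : Fin N → L) (P : MCurve N),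
      AlgebraicIndependent ℂ (fun i : S => z i) → DenseInVariety z P → P.DenseInBase S := by
    intro L _ _ z P hz hP
    rw [MCurve.denseInBase_iff, algebraicIndependent_iff]
    intro p hp
    have h4 : P.Vanishes (rename (fun s : S => (s : Fin N)) p) := by
      rw [MCurve.vanishes_iff, aeval_rename]; exact hp
    have h5 := (hP _).mp h4
    rw [aeval_rename] at h5
    exact (algebraicIndependent_iff.1 hz) p h5
  refine ⟨⟨g, hg, ⟨?_, fun ⟨γ, h4, h5, h6⟩ => key γ h4 h5 h6⟩, ?_⟩, ?_⟩
  · rintro ⟨P, hP⟩
    exact ⟨P, fun Q hQ => (hP Q).mpr hQ, fun h => hg ((hP g).mp h),
      base K x P hS.independent hP⟩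
  · rintro L _ _ z hz hzg hzS ⟨P, hP⟩
    exact key P (fun Q hQ => (hP Q).mpr (hz Q hQ)) (fun h => hzg ((hP g).mp h)) (base L z P hzS hP)
  · rintro ⟨P, hP⟩ M ξ hξ
    have hpt : points x = {v | ∀ Q, aeval P.toMer Q = 0 → eval v Q = 0} := by
      ext v
      refine forall_congr' fun Q => ?_
      rw [← hP Q, MCurve.vanishes_iff]
    have hne : ∃ i, aeval P.toMer (ξ i) ≠ 0 := by
      by_contra hcon
      push Not at hcon
      obtain ⟨_, v, hv, hv0, -⟩ := hξ
      apply hv0
      funext i
      rw [hpt] at hv
      exact hv _ (hcon i)
    rw [hpt]
    exact brodySpecial_of_point P.toMer ξ hne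

end Pool.Agent.Results.MP_1209e6_ag.ImmovableBaseCurves
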