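import Pool.Agent.U188.MF.Ana

/-!
# Special varieties, entire curves, and the moduli fibrations of rational maps

`X` is a projective variety over the complex numbers, of dimension `w`. It is given by its function
field `K` and the homogeneous coordinates `x` of its generic point; `coords ℂ x = ⊤` says that `K` is
generated by the ratios of the coordinates, and `val x G` is the value of the form `G` at `x`.

`p / q` is a rational map `f` of the projective line over `K` of degree `d ≥ 2` (a family of rational
maps parametrized by an open subset of `X`), and `prePer d p q` is the set of its preperiodic points in
`P^1(K)` (rational sections of `P^1 × X` which are preperiodic under the family).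

**The moduli fibration** `X ⇢ Y` of `f` is given by the function field `E` of its base `Y`
(`ModuliFibration d p q E`): its general fibres are irreducible, `f` is conjugate over `K` to a map over
`E`, its preperiodic points descend too, and `E` is contained in the algebraic closure of every field
over which `f` is defined up to conjugation. Its base has the dimension `v`, the variation of `f`
(`IsVariation`). `f` is isotrivial (conjugate over an algebraic closure of `K` to a map with constant
coefficients) if and only if `v = 0`.

**The theorem.** There is a number `B` which only depends on `d` such that for all `X` and all `f` with
at least `B` preperiodic points the moduli fibration exists, `Y` is a point or of general type, and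
moreover the following holds.

* For every rational map `c = (c 0 : c 1 : ...)` on `X`, given by forms of the same degree, which
  factors through `Y` (the ratios are in `E`), there is a proper closed subset `R = 0` of `X` such that
  `c` is constant on all special subvarieties of `X` which are not contained in it, and on the images of
  all meromorphic maps `ℂ ^ g ⇢ X` which are not contained in it (`Contracts`). With a rational map `c`
  which is birational onto `Y`: the special subvarieties and the entire curves of `X` lie in the fibres
  of `X ⇢ Y` or in one proper closed subset.
* If `X` is special, or Brody-special (there is an entire curve with Zariski-dense image), then `f` is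
  isotrivial.

So the conjecture holds for all projective varieties `X` which carry a map `f` which is not isotrivial
and has at least `B(d)` preperiodic points in `P^1(ℂ(X))`: they are neither special nor Brody-special.
For special varieties, e.g. for rationally connected varieties and abelian varieties, all maps of
degree `d` over the function field with at least `B(d)` preperiodic points are isotrivial.

`Special ℂ K w (fun _ => False)`: for `p ≥ 1` there are no rank one sheaves of `p`-forms of Iitaka
dimension `p` (`Pool/Agent/W602/GT/SpecDefs.lean`); `BrodySpecial ∅ x`: there is a holomorphic map
from `ℂ` to `X` such that every form which vanishes on the image vanishes at `x`. `SubOf ℂ x z`: the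
point `z` over `F` is the generic point of a closed subvariety of `X`. In `Contracts` the special
subvarieties are given by their generic points `z`, and a meromorphic map from `ℂ ^ g` to `X` by
entire functions `f i` on `ℂ ^ g` such that all forms which vanish at `x` vanish at `f` (`Mero`);
constant on the image of `f` means that `c j (f (t)) = a j * c 0 (f (t))` for constants `a j`.

Proof. The descent to `E` and the general type of `Y` are library theorems (`Pool/Agent/Q103/VR`), as
well as the hyperbolicity (modulo a proper closed subset) of varieties which carry a map with many
preperiodic points and generically finite moduli map (`Pool/Agent/Q103/EC`), and the fact that the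
images of special varieties under rational maps are not of general type. New here
(`Pool/Agent/U188/MF`): projective models of the base by forms on `X`, the transfer of subvarieties and
meromorphic maps to the base, the contraction statements and their consequences for `X`.
-/

set_option autoImplicit false

namespace Pool.Agent.Results.MP_1209e6_ag.ModuliFibrations

open Polynomial
open Pool.Agent.W602.GT
open Pool.Agent.Q103.EC (prePer Isotrivial)
open Pool.Agent.Q103.VR
open Pool.Agent.U188.MF (Contracts)

/-- **The moduli fibration contracts the special subvarieties and the entire curves; special and
Brody-special varieties carry only isotrivial maps with many preperiodic points.** -/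
theorem result (d : ℕ) (hd : 2 ≤ d) : ∃ B : ℕ, ∀ (K : Type) [Field K] [Algebra ℂ K] (M : ℕ)
    (x : Fin (M + 1) → K), x ≠ 0 → coords ℂ x = ⊤ → ∀ w : ℕ, Algebra.trdeg ℂ K = w →
    ∀ p q : K[X], IsCoprime p q → max p.natDegree q.natDegree = d →
    (B : ℕ∞) ≤ (prePer d p q).encard →
    ∃ (E : IntermediateField ℂ K) (v : ℕ), ModuliFibration d p q E ∧ v ≤ w ∧
      Algebra.trdeg ℂ E = v ∧ IsVariation ℂ d p q v ∧ (1 ≤ v → GeneralType ℂ E v) ∧
      (∀ (r e : ℕ) (c : Fin (r + 1) → MvPolynomial (Fin (M + 1)) ℂ), (∀ j, (c j).IsHomogeneous e) →
        val x (c 0) ≠ 0 → (∀ j, val x (c j) / val x (c 0) ∈ E) → ∃ R, Contracts x c R) ∧
      (Special ℂ K w (fun _ => False) ∨ BrodySpecial ∅ x → Isotrivial ℂ d p q) :=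
  Pool.Agent.U188.MF.main d hd

end Pool.Agent.Results.MP_1209e6_ag.ModuliFibrations
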