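import Mathlib
import Pool.Agent.U178.RC.Gen

/-!
# MP_1209e6_ag: entire curves of bounded complexity and rational connectedness

Let `X` be an irreducible complex projective variety. If `X` has a Zariski-dense entire curve of
bounded complexity, that is, with homogeneous coordinates given by iterated linear differential
equations, or if two very general points of `X` can be joined by an entire curve of finite complexity
(which may depend on the points), then the image of `X` under each nonconstant rational map is covered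
by rational curves. By the theorem of Graber, Harris and Starr this means that `X` is rationally
connected, hence special.
-/

set_option autoImplicit false

namespace Pool.Agent.Results.MP_1209e6_ag.RationallyConnected

open MvPolynomial
open Pool.Agent.V1153.UG (Bdd IterSys Vx vec pev pev_poly GmRuled pev_C)

variable {n m : ℕ}

/-- The vector `x` is in the cone over the projective variety `X` with the ideal `I`: it is zero or
the vector of homogeneous coordinates of a point of `X`. -/
def OnCone (I : Ideal (MvPolynomial (Fin (n + 1)) ℂ)) (x : Fin (n + 1) → ℂ) : Prop :=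
  ∀ F ∈ I, (∃ a, F.IsHomogeneous a) → eval x F = 0

/-- `f` is the vector of entire homogeneous coordinates, without common zeros, of a (constant or
nonconstant) holomorphic map from the plane to the projective variety `X` with the ideal `I`. -/
structure EntireMap (I : Ideal (MvPolynomial (Fin (n + 1)) ℂ)) (f : ℂ → Fin (n + 1) → ℂ) : Prop where
  diff : ∀ j, Differentiable ℂ fun z => f z j
  ne : ∀ z, f z ≠ 0
  mem : ∀ z, OnCone I (f z)

/-- The map with the homogeneous coordinates `f` is of complexity at most `(s, r, e, δ)`: on some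
nonempty open subset `U` of the plane there are a polynomial `q` of degree at most `δ` without zeros
in `U`, vector functions `y_1, ..., y_s` of length `r` such that `y_l' = A_l y_l`, where the entries of
the matrix `A_l` are polynomials of degree at most `e` in each of the variables `z`, `1 / q(z)` and the
entries of `y_i`, `i < l` (this is `IterSys s r e δ U q y`), and a function `u` without zeros in `U`
such that the `u f_j` are polynomials of degree at most `e` in each of the variables `z`, `1 / q(z)`
and the entries of `y_1, ..., y_s`. -/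
def Complexity (s r e δ : ℕ) (f : ℂ → Fin (n + 1) → ℂ) : Prop :=
  ∃ (U : Set ℂ) (q : Polynomial ℂ) (y : Fin s → Fin r → ℂ → ℂ) (u : ℂ → ℂ), IsOpen U ∧
    U.Nonempty ∧ IterSys s r e δ U q y ∧ (∀ z ∈ U, u z ≠ 0) ∧
    ∀ j, ∃ c : (Vx s r → Fin (e + 1)) → ℂ, ∀ z ∈ U,
      u z * f z j = pev c (vec z (q.eval z)⁻¹ fun l a => y l a z)

/-- The pairs of points of `X` which are joined by a holomorphic map from the plane to `X` of
complexity at most `(s, r, e, δ)` are Zariski-dense in the product of `X` with itself: each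
polynomial in two vector variables which vanishes at all such pairs vanishes on the product. -/
def PairsDense (I : Ideal (MvPolynomial (Fin (n + 1)) ℂ)) (s r e δ : ℕ) : Prop :=
  ∀ B : MvPolynomial (Fin (n + 1) ⊕ Fin (n + 1)) ℂ,
    (∀ f, EntireMap I f → Complexity s r e δ f → ∀ z w, eval (Sum.elim (f z) (f w)) B = 0) →
      ∀ x x' : Fin (n + 1) → ℂ, OnCone I x → OnCone I x' → eval (Sum.elim x x') B = 0

/-- The image of `f` is Zariski-dense in `X`. -/
def ZariskiDense (I : Ideal (MvPolynomial (Fin (n + 1)) ℂ)) (f : ℂ → Fin (n + 1) → ℂ) : Prop :=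
  ∀ G : MvPolynomial (Fin (n + 1)) ℂ, (∃ a, G.IsHomogeneous a) → (∀ z, eval (f z) G = 0) → G ∈ I

/-- The points of `X` with the homogeneous coordinates `x` and `x'` lie on the image of a holomorphic
map from the plane to `X` of finite complexity. -/
def Joined (I : Ideal (MvPolynomial (Fin (n + 1)) ℂ)) (x x' : Fin (n + 1) → ℂ) : Prop :=
  ∃ f, EntireMap I f ∧ (∃ s r e δ, Complexity s r e δ f) ∧
    ∃ z w c c' : ℂ, f z = c • x ∧ f w = c' • x'

/-- The points of `X` with the homogeneous coordinates `x` and `x'` are joined for each very general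
pair: for all pairs at which none of the polynomials `B_0, B_1, ...` in two vector variables vanishes,
where no `B_k` vanishes identically on the product of `X` with itself. -/
def VeryGeneralJoined (I : Ideal (MvPolynomial (Fin (n + 1)) ℂ)) : Prop :=
  ∃ B : ℕ → MvPolynomial (Fin (n + 1) ⊕ Fin (n + 1)) ℂ,
    (∀ k, ∃ x x' : Fin (n + 1) → ℂ, OnCone I x ∧ OnCone I x' ∧ eval (Sum.elim x x') (B k) ≠ 0) ∧
    ∀ x x' : Fin (n + 1) → ℂ, x ≠ 0 → x' ≠ 0 → OnCone I x → OnCone I x' →
      (∀ k, eval (Sum.elim x x') (B k) ≠ 0) → Joined I x x'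

/-- The rational map `[φ_0 : ... : φ_m]` on `X` is not constant. -/
def NonconstantOn (I : Ideal (MvPolynomial (Fin (n + 1)) ℂ))
    (φ : Fin (m + 1) → MvPolynomial (Fin (n + 1)) ℂ) : Prop :=
  ∃ i j, ∃ x x' : Fin (n + 1) → ℂ, OnCone I x ∧ OnCone I x' ∧
    eval x (φ i) * eval x' (φ j) ≠ eval x (φ j) * eval x' (φ i)

/-- The ideal of the closure of the image of `X` under the rational map `[φ_0 : ... : φ_m]`: it
consists of the polynomials `H` such that `H(φ_0, ..., φ_m)` is in the ideal of `X`. -/
noncomputable def imageIdeal (I : Ideal (MvPolynomial (Fin (n + 1)) ℂ))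
    (φ : Fin (m + 1) → MvPolynomial (Fin (n + 1)) ℂ) : Ideal (MvPolynomial (Fin (m + 1)) ℂ) :=
  I.comap (aeval φ : MvPolynomial (Fin (m + 1)) ℂ →ₐ[ℂ] MvPolynomial (Fin (n + 1)) ℂ)

/-- The projective variety with the ideal `J` is covered by rational curves: there is a dominant
rational map to it from the product of the projective line and some variety (with a function field
contained in `L`), which is not constant along the line; it is given by the polynomials `P` in one
variable over `L`. -/
def Uniruled (J : Ideal (MvPolynomial (Fin (m + 1)) ℂ)) : Prop :=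
  ∃ (L : Type) (_ : Field L) (_ : Algebra ℂ L) (P : Fin (m + 1) → Polynomial L),
    (∀ F ∈ J, (∃ a, F.IsHomogeneous a) → aeval P F = 0) ∧
    (∀ G : MvPolynomial (Fin (m + 1)) ℂ, (∃ a, G.IsHomogeneous a) → G ∉ J → aeval P G ≠ 0) ∧
    ∃ j k, Polynomial.derivative (P j) * P k ≠ P j * Polynomial.derivative (P k)

theorem entMap_iff {I : Ideal (MvPolynomial (Fin (n + 1)) ℂ)} {f : ℂ → Fin (n + 1) → ℂ} :
    Pool.Agent.U178.RC.EntMap I f ↔ EntireMap I f :=
  ⟨fun h => ⟨h.diff, h.ne, h.mem⟩, fun h => ⟨h.diff, h.ne, h.mem⟩⟩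

theorem bdd_iff {s r e δ : ℕ} {f : ℂ → Fin (n + 1) → ℂ} :
    Bdd Set.univ 1 s r e δ f ↔ Complexity s r e δ f := by
  constructor
  · rintro ⟨U, q, y, u, hU, hUn, -, hs, hu, hc, -⟩
    exact ⟨U, q, y, u, hU, hUn, hs, hu, hc⟩
  · rintro ⟨U, q, y, u, hU, hUn, hs, hu, hc⟩
    obtain ⟨c, hc1⟩ := pev_C (ι := Vx s r) (e := e) (1 : ℂ)
    exact ⟨U, q, y, u, hU, hUn, Set.subset_univ _, hs, hu, hc, c, fun z _ => by
      rw [hc1, map_one, one_mul]⟩

theorem pairs_iff {I : Ideal (MvPolynomial (Fin (n + 1)) ℂ)} {s r e δ : ℕ} :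
    Pool.Agent.U178.RC.PairsDense I s r e δ ↔ PairsDense I s r e δ := by
  unfold Pool.Agent.U178.RC.PairsDense PairsDense
  simp only [entMap_iff, bdd_iff]
  exact Iff.rfl

theorem ruled_iff {J : Ideal (MvPolynomial (Fin (m + 1)) ℂ)} : GmRuled J 1 ↔ Uniruled J := by
  constructor
  · rintro ⟨L, _, _, P, h1, -, h3, h4⟩
    exact ⟨L, _, _, P, h1, h3, h4⟩
  · rintro ⟨L, _, _, P, h1, h3, h4⟩
    exact ⟨L, _, _, P, h1, ⟨1, 0, one_ne_zero, by simp⟩, h3, h4⟩

/-- Let `X` be an irreducible projective variety, with the prime ideal `I`.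

(1) If for some `(s, r, e, δ)` the pairs of points of `X` which are joined by holomorphic maps from the
plane to `X` of complexity at most `(s, r, e, δ)` are Zariski-dense in the product of `X` with
itself, then the closure of the image of `X` under each nonconstant rational map is covered by
rational curves.

(2) The assumption of (1) is satisfied if there is a Zariski-dense holomorphic map from the plane to
`X` of complexity at most `(s, r, e, δ)`.

(3) It is also satisfied, for some `(s, r, e, δ)`, if `X` is not empty and each very general pair of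
points is joined by a holomorphic map from the plane to `X` of finite complexity.

(4) The rational curves of degree at most `N` in `X` are of complexity at most `(0, 0, N, 0)`. -/
theorem result {I : Ideal (MvPolynomial (Fin (n + 1)) ℂ)} (hI : I.IsPrime) :
    (∀ s r e δ : ℕ, PairsDense I s r e δ →
      ∀ (m D : ℕ) (φ : Fin (m + 1) → MvPolynomial (Fin (n + 1)) ℂ),
        (∀ j, (φ j).IsHomogeneous D) → NonconstantOn I φ → Uniruled (imageIdeal I φ)) ∧
    (∀ s r e δ : ℕ, (∃ f, EntireMap I f ∧ Complexity s r e δ f ∧ ZariskiDense I f) →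
      PairsDense I s r e δ) ∧
    ((∀ F ∈ I, ∀ k, homogeneousComponent k F ∈ I) → (∃ x, x ≠ 0 ∧ OnCone I x) →
      VeryGeneralJoined I → ∃ s r e δ, PairsDense I s r e δ) ∧
    ∀ (N : ℕ) (P : Fin (n + 1) → Polynomial ℂ), (∀ j, (P j).natDegree ≤ N) →
      (∀ z, ∃ j, (P j).eval z ≠ 0) → (∀ F ∈ I, (∃ a, F.IsHomogeneous a) → aeval P F = 0) →
      EntireMap I (fun z j => (P j).eval z) ∧ Complexity 0 0 N 0 fun z j => (P j).eval z := by
  refine ⟨fun s r e δ hd m D φ hφ hnc => ?_, fun s r e δ ⟨f, hf, hc, hd⟩ => ?_,
    fun hom ⟨x, hx0, hx⟩ ⟨B, hB, hj⟩ => ?_, fun N P hP hP0 hPI => ?_⟩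
  · exact ruled_iff.1 (Pool.Agent.U178.RC.ruled_of_pairs hI (pairs_iff.2 hd) hφ hnc)
  · exact pairs_iff.1 (Pool.Agent.U178.RC.pairs_of_dense (entMap_iff.2 hf) (bdd_iff.2 hc)
      fun G hG h x hx => hx G (hd G hG h) hG)
  · simp only [← pairs_iff]
    have hne : ∃ i, X i ∉ I := by
      by_contra hcon
      push Not at hcon
      apply hx0
      funext i
      have h1 := hx (X i) (hcon i) ⟨1, isHomogeneous_X ℂ i⟩
      rwa [eval_X] at h1
    refine Pool.Agent.U178.RC.pairs_of_general hI hom hne B hB fun x x' h1 h2 h3 h4 h5 => ?_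
    obtain ⟨f, hf, ⟨s, r, e, δ, hc⟩, h6⟩ := hj x x' h1 h2 h3 h4 h5
    exact ⟨f, entMap_iff.2 hf, ⟨s, r, e, δ, bdd_iff.2 hc⟩, h6⟩
  · refine ⟨⟨fun j => (P j).differentiable, fun z h0 => ?_, fun z F hF ha => ?_⟩, Set.univ, 1,
      fun _ _ _ => 0, 1, isOpen_univ, Set.univ_nonempty, ⟨?_, fun z _ => ?_, fun l => l.elim0⟩,
      fun _ _ => one_ne_zero, fun j => ?_⟩
    · obtain ⟨j, hj⟩ := hP0 z
      exact hj (congrFun h0 j)
    · have h1 := congrArg (Polynomial.eval z) (hPI F hF ha)
      rw [Polynomial.eval_zero] at h1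
      rw [← h1]
      exact (Pool.Agent.V1153.UG.eval_aeval F z).symm
    · rw [Polynomial.natDegree_one]
    · rw [Polynomial.eval_one]
      exact one_ne_zero
    · obtain ⟨c, hc⟩ := pev_poly (e := N) (P j) (hP j) (Sum.inl true : Vx 0 0)
      refine ⟨c, fun z _ => ?_⟩
      rw [hc, Pi.one_apply, one_mul]
      rfl

end Pool.Agent.Results.MP_1209e6_ag.RationallyConnected
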